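import Pool.Agent.W2helper75.FD.Stm3
import Pool.Agent.W2helper82.FD.Nret

/-!
# Project FD, piece IO3: for `r` large the inverse of the walk is in `M` infinitely often
-/

set_option autoImplicit false

open MeasureTheory ProbabilityTheory Filter Topology
open scoped ENNReal NNReal

namespace Pool.Agent.W2helper34.FD

open Pool.Agent.W2helper75.FD Pool.Agent.W2helper19.FD Pool.Agent.W2helper82.FD

section Hit

variable {Γ : Type} [Group Γ] {S : Finset Γ}

/-- product of a word -/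
def wp (v : List S) : Γ := (v.map (fun s : S => (s : Γ))).prod

lemma wp_nil : wp ([] : List S) = (1 : Γ) := rfl

lemma wp_cons (s : S) (v : List S) : wp (s :: v) = (s : Γ) * wp v := by
  simp [wp]

variable [Nonempty S] [MeasurableSpace S] [DiscreteMeasurableSpace S]

omit [Nonempty S] in
lemma meas_hit (A : Set Γ) (g : Γ) : MeasurableSet {c : ℕ → S | ∃ n, g * pos c n ∈ A} := by
  have e : {c : ℕ → S | ∃ n, g * pos c n ∈ A} = ⋃ n, {c : ℕ → S | g * pos c n ∈ A} := by
    ext c; simp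
  rw [e]
  exact MeasurableSet.iUnion fun n => meas_mul_pos g n A

omit [Nonempty S] in
lemma meas_hitN (A : Set Γ) (g : Γ) (N : ℕ) :
    MeasurableSet {c : ℕ → S | ∃ n ≤ N, g * pos c n ∈ A} := by
  have e : {c : ℕ → S | ∃ n ≤ N, g * pos c n ∈ A} =
      ⋃ n, ⋃ _ : n ≤ N, {c : ℕ → S | g * pos c n ∈ A} := by
    ext c; simp
  rw [e]
  exact MeasurableSet.iUnion fun n => MeasurableSet.iUnion fun _ => meas_mul_pos g n A

variable (S) in
/-- probability to hit `A` from `g` -/
noncomputable def hp (A : Set Γ) (g : Γ) : ℝ≥0∞ := mlaw S {c : ℕ → S | ∃ n, g * pos c n ∈ A}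

lemma hp_step (A : Set Γ) (g : Γ) :
    (Fintype.card S : ℝ≥0∞)⁻¹ * ∑ s : S, hp S A (g * s) ≤ hp S A g := by
  unfold hp
  rw [split _ (meas_hit A g)]
  refine mul_le_mul_right (Finset.sum_le_sum fun s _ => measure_mono ?_) _
  rintro c ⟨n, hn⟩
  exact ⟨n + 1, by rw [pos_cns, ← mul_assoc]; exact hn⟩

lemma hp_mem (A : Set Γ) (g : Γ) (hg : g ∈ A) : hp S A g = 1 := by
  have e : {c : ℕ → S | ∃ n, g * pos c n ∈ A} = Set.univ := by
    ext c
    simp only [Set.mem_ofPred_eq, Set.mem_univ, iff_true]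
    exact ⟨0, by rw [pos_zero, mul_one]; exact hg⟩
  unfold hp
  rw [e, measure_univ]

lemma hp_one_step (A : Set Γ) (g : Γ) (s : S) :
    (Fintype.card S : ℝ≥0∞)⁻¹ * hp S A (g * s) ≤ hp S A g :=
  le_trans (mul_le_mul_right (Finset.single_le_sum (f := fun s : S => hp S A (g * s))
    (fun _ _ => zero_le) (Finset.mem_univ s)) _) (hp_step A g)

lemma hp_word (A : Set Γ) : ∀ (v : List S) (g : Γ), g * wp v ∈ A →
    ((Fintype.card S : ℝ≥0∞)⁻¹) ^ v.length ≤ hp S A g := by
  intro v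
  induction v with
  | nil =>
    intro g hg
    rw [wp_nil, mul_one] at hg
    rw [hp_mem A g hg]
    simp
  | cons s v ih =>
    intro g hg
    rw [wp_cons, ← mul_assoc] at hg
    refine le_trans ?_ (hp_one_step A g s)
    rw [List.length_cons, pow_succ']
    exact mul_le_mul_right (ih _ hg) _

lemma hp_markov (A B : Set Γ) (δ : ℝ≥0∞) (hδ : ∀ y ∈ A, δ ≤ hp S B y) (g : Γ) :
    δ * hp S A g ≤ hp S B g := by
  have key : ∀ (N : ℕ) (g : Γ), δ * mlaw S {c : ℕ → S | ∃ n ≤ N, g * pos c n ∈ A} ≤ hp S B g := by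
    intro N
    induction N with
    | zero =>
      intro g
      by_cases hg : g ∈ A
      · refine le_trans ?_ (hδ g hg)
        calc δ * mlaw S {c : ℕ → S | ∃ n ≤ 0, g * pos c n ∈ A} ≤ δ * 1 :=
              mul_le_mul_right prob_le_one _
          _ = δ := mul_one _
      · have e : {c : ℕ → S | ∃ n ≤ 0, g * pos c n ∈ A} = ∅ := by
          ext c
          simp only [Set.mem_ofPred_eq, Set.mem_empty_iff_false, iff_false, not_exists, not_and]
          intro n hn hc
          rw [Nat.le_zero.1 hn, pos_zero, mul_one] at hc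
          exact hg hc
        rw [e, measure_empty, mul_zero]
        exact zero_le
    | succ N ih =>
      intro g
      by_cases hg : g ∈ A
      · refine le_trans ?_ (hδ g hg)
        calc δ * mlaw S {c : ℕ → S | ∃ n ≤ N + 1, g * pos c n ∈ A} ≤ δ * 1 :=
              mul_le_mul_right prob_le_one _
          _ = δ := mul_one _
      · rw [split _ (meas_hitN A g (N + 1))]
        refine le_trans ?_ (hp_step B g)
        rw [mul_left_comm, Finset.mul_sum]
        refine mul_le_mul_right (Finset.sum_le_sum fun s _ => ?_) _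
        refine le_trans (mul_le_mul_right (measure_mono ?_) _) (ih (g * s))
        rintro c ⟨n, hn, hc⟩
        cases n with
        | zero => rw [pos_zero, mul_one] at hc; exact absurd hc hg
        | succ n =>
          rw [pos_cns, ← mul_assoc] at hc
          exact ⟨n, by omega, hc⟩
  have e : {c : ℕ → S | ∃ n, g * pos c n ∈ A} =
      ⋃ N : ℕ, {c : ℕ → S | ∃ n ≤ N, g * pos c n ∈ A} := by
    ext c
    simp only [Set.mem_ofPred_eq, Set.mem_iUnion]
    exact ⟨fun ⟨n, hn⟩ => ⟨n, n, le_rfl, hn⟩, fun ⟨_, n, _, hn⟩ => ⟨n, hn⟩⟩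
  have hm : Monotone fun N : ℕ => {c : ℕ → S | ∃ n ≤ N, g * pos c n ∈ A} := by
    intro N N' hN c ⟨n, hn, hc⟩
    exact ⟨n, hn.trans hN, hc⟩
  have : hp S A g = ⨆ N : ℕ, mlaw S {c : ℕ → S | ∃ n ≤ N, g * pos c n ∈ A} := by
    unfold hp
    rw [e]
    exact hm.measure_iUnion
  rw [this, ENNReal.mul_iSup]
  exact iSup_le fun N => key N g

end Hit

section Words

variable {Γ : Type} [Group Γ] {S : Finset Γ}

lemma exists_word (hS : ∀ s ∈ S, s⁻¹ ∈ S) (hgen : Subgroup.closure (S : Set Γ) = ⊤) (g : Γ) :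
    ∃ v : List S, wp v = g := by
  have hg : g⁻¹ ∈ Subgroup.closure (S : Set Γ) := by rw [hgen]; trivial
  have key : ∀ x ∈ Subgroup.closure (S : Set Γ), ∃ v : List S, wp v = x⁻¹ := by
    intro x hx
    induction hx using Subgroup.closure_induction_right with
    | one => exact ⟨[], by rw [wp_nil, inv_one]⟩
    | mul_right x hx s hs ih =>
      obtain ⟨v, hv⟩ := ih
      exact ⟨⟨s⁻¹, hS s hs⟩ :: v, by rw [wp_cons, hv, mul_inv_rev]⟩
    | mul_inv_cancel x hx s hs ih =>
      obtain ⟨v, hv⟩ := ih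
      exact ⟨⟨s, hs⟩ :: v, by rw [wp_cons, hv, mul_inv_rev, inv_inv]⟩
  obtain ⟨v, hv⟩ := key _ hg
  exact ⟨v, by rw [hv, inv_inv]⟩

lemma words (H : Subgroup Γ) (hH : H.FiniteIndex) (hS : ∀ s ∈ S, s⁻¹ ∈ S)
    (hgen : Subgroup.closure (S : Set Γ) = ⊤) :
    ∃ L : ℕ, ∀ y : Γ, ∃ v : List S, v.length ≤ L ∧ y * wp v ∈ H := by
  classical
  have : Finite (Γ ⧸ H) := inferInstance
  have : Fintype (Γ ⧸ H) := Fintype.ofFinite _
  choose w hw using fun q : Γ ⧸ H => exists_word hS hgen q.out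
  refine ⟨Finset.univ.sup fun q => (w q).length, fun y => ⟨w (y⁻¹ : Γ), ?_, ?_⟩⟩
  · exact Finset.le_sup (f := fun q => (w q).length) (Finset.mem_univ _)
  · have h1 : (((y⁻¹ : Γ) : Γ ⧸ H)) = ((wp (w ((y⁻¹ : Γ) : Γ ⧸ H)) : Γ) : Γ ⧸ H) := by
      rw [hw]
      exact (QuotientGroup.out_eq' _).symm
    have h2 := QuotientGroup.eq.1 h1
    rwa [inv_inv] at h2

variable {H : Subgroup Γ} {h : Γ → ℤ} {b : Γ → ℝ} {θ : ℝ} {D : ℕ} {t : Γ}

lemma zle (hθ0 : 0 < θ) (hθ1 : θ < 1) {m n : ℤ} (hmn : m ≤ n) : θ ^ n ≤ θ ^ m :=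
  zpow_le_zpow_right_of_le_one₀ hθ0 hθ1.le hmn

lemma along (hs : Sys S H h b θ D t) (v : List S) : ∀ y : Γ,
    |h (y * wp v) - h y| ≤ (D : ℤ) * v.length ∧
      b (y * wp v) ≤ b y + D * v.length * θ ^ (h y - (D : ℤ) * v.length) := by
  induction v with
  | nil => intro y; rw [wp_nil, mul_one]; simp
  | cons s v ih =>
    intro y
    obtain ⟨h1, h2⟩ := ih (y * s)
    have h3 := hs.h_step y s s.2
    have h4 := hs.b_step y s s.2
    rw [wp_cons, ← mul_assoc]
    rw [abs_le] at h1 h3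
    have hl : (((s :: v).length : ℕ) : ℤ) = (v.length : ℤ) + 1 := by simp
    have hl' : (((s :: v).length : ℕ) : ℝ) = (v.length : ℝ) + 1 := by simp
    rw [hl, hl']
    have hn : (0 : ℤ) ≤ (D : ℤ) * v.length := by positivity
    have hD : (0 : ℤ) ≤ (D : ℤ) := by positivity
    refine ⟨by rw [abs_le]; constructor <;> nlinarith [h1.1, h1.2, h3.1, h3.2], ?_⟩
    have e1 : θ ^ h y ≤ θ ^ (h y - (D : ℤ) * ((v.length : ℤ) + 1)) :=
      zle hs.θ0 hs.θ1 (by nlinarith)
    have e2 : θ ^ (h (y * s) - (D : ℤ) * v.length) ≤ θ ^ (h y - (D : ℤ) * ((v.length : ℤ) + 1)) :=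
      zle hs.θ0 hs.θ1 (by nlinarith [h3.1])
    have e3 : (0 : ℝ) ≤ (D : ℝ) := by positivity
    have e4 : (0 : ℝ) ≤ (D : ℝ) * v.length := by positivity
    nlinarith [mul_le_mul_of_nonneg_left e1 e3, mul_le_mul_of_nonneg_left e2 e4]

lemma b_path (hs : Sys S H h b θ D t) (g : Γ) (c : ℕ → S) (n : ℕ) :
    b (g * pos c n) ≤ b g + D * ∑ k ∈ Finset.range n, θ ^ h (g * pos c k) := by
  induction n with
  | zero => rw [pos_zero, mul_one]; simp
  | succ n ih =>
    rw [Finset.sum_range_succ, pos_succ, ← mul_assoc]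
    have := hs.b_step (g * pos c n) (c n) (c n).2
    linarith

lemma h_one' (hs : Sys S H h b θ D t) : h 1 = 0 := by
  have := hs.h_mul 1 H.one_mem 1
  rw [mul_one] at this
  omega

lemma h_path (hs : Sys S H h b θ D t) (c : ℕ → S) (n : ℕ) : -((D : ℤ) * n) ≤ h (pos c n) := by
  induction n with
  | zero => rw [pos_zero, h_one' hs]; simp
  | succ n ih =>
    rw [pos_succ]
    have := hs.h_step (pos c n) (c n) (c n).2
    rw [abs_le] at this
    push_cast
    linarith [this.1]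

end Words

lemma meas_fun {Γ : Type} [Group Γ] {S : Finset Γ} [MeasurableSpace S] [DiscreteMeasurableSpace S]
    (g : Γ) (k : ℕ) (F : Γ → ℝ≥0∞) :
    Measurable fun c : ℕ → S => F (g * pos c k) := fun A _ => meas_mul_pos g k (F ⁻¹' A)

/-- the first passage below `l` -/
lemma passage {Γ : Type} [Group Γ] {S : Finset Γ} [Nonempty S] [MeasurableSpace S]
    [DiscreteMeasurableSpace S] {H : Subgroup Γ} {h : Γ → ℤ} {b : Γ → ℝ} {θ : ℝ} {D : ℕ} {t : Γ}
    (hs : Sys S H h b θ D t) (C : ℝ) (hC0 : 0 ≤ C)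
    (hC : ∀ (g : Γ) (l : ℤ),
      ∫⁻ c : ℕ → S, ∑' k : ℕ, (open Classical in if ∀ j ≤ k, l ≤ h (g * pos c j) then
        ENNReal.ofReal (θ ^ h (g * pos c k)) else 0) ∂(mlaw S) ≤ ENNReal.ofReal (C * θ ^ l))
    (hosc : OscC S h) (g : Γ) (l : ℤ) (hl : l ≤ h g) :
    1 / 2 ≤ hp S {y | h y < l ∧ l - D ≤ h y ∧ b y ≤ b g + D * (2 * (C + 1) * θ ^ l)} g := by
  classical
  have hθl : 0 < θ ^ l := zpow_pos hs.θ0 l
  set f : (ℕ → S) → ℝ≥0∞ := fun c => ∑' k : ℕ, (if ∀ j ≤ k, l ≤ h (g * pos c j) then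
        ENNReal.ofReal (θ ^ h (g * pos c k)) else 0) with hf
  have hCf : ∫⁻ c, f c ∂(mlaw S) ≤ ENNReal.ofReal (C * θ ^ l) := by
    have := hC g l
    convert this using 5
  have hfm : Measurable f := by
    refine Measurable.ennreal_tsum fun k => ?_
    refine Measurable.ite ?_ (meas_fun g k fun x => ENNReal.ofReal (θ ^ h x)) measurable_const
    have e : {c : ℕ → S | ∀ j ≤ k, l ≤ h (g * pos c j)} =
        ⋂ j, ⋂ _ : j ≤ k, {c : ℕ → S | g * pos c j ∈ {x | l ≤ h x}} := by
      ext c; simp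
    rw [e]
    exact MeasurableSet.iInter fun j => MeasurableSet.iInter fun _ => meas_mul_pos g j _
  set K : ℝ := 2 * (C + 1) * θ ^ l with hK
  have hK0 : 0 < K := by positivity
  have hmk : mlaw S {c | ENNReal.ofReal K ≤ f c} ≤ 1 / 2 := by
    have h1 := mul_meas_ge_le_lintegral (μ := mlaw S) hfm (ENNReal.ofReal K)
    have h2 : ENNReal.ofReal (C * θ ^ l) ≤ ENNReal.ofReal K * (1 / 2) := by
      have : (1 / 2 : ℝ≥0∞) = ENNReal.ofReal (1 / 2) := by
        rw [ENNReal.ofReal_div_of_pos (by norm_num)]; simp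
      rw [this, ← ENNReal.ofReal_mul hK0.le]
      apply ENNReal.ofReal_le_ofReal
      rw [hK]
      nlinarith
    have h3 := (h1.trans hCf).trans h2
    have hKt : ENNReal.ofReal K ≠ ⊤ := ENNReal.ofReal_ne_top
    have hKz : ENNReal.ofReal K ≠ 0 := by
      rw [Ne, ENNReal.ofReal_eq_zero, not_le]; exact hK0
    exact (ENNReal.mul_le_mul_iff_right hKz hKt).1 h3
  have hE1 : mlaw S {c : ℕ → S | ∃ n, h (g * pos c n) < l}ᶜ = 0 := by
    have hm : MeasurableSet {c : ℕ → S | ∃ n, h (g * pos c n) < l} := meas_hit {x | h x < l} g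
    rw [prob_compl_eq_zero_iff hm]
    have h1 := hosc g (-(l - 1))
    refine le_antisymm prob_le_one ?_
    rw [← h1]
    refine measure_mono ?_
    rintro c ⟨n, hn⟩
    exact ⟨n, by omega⟩
  set A : Set Γ := {y | h y < l ∧ l - D ≤ h y ∧ b y ≤ b g + D * K} with hA
  have hsub : (Set.univ : Set (ℕ → S)) ⊆ {c : ℕ → S | ∃ n, g * pos c n ∈ A} ∪
      ({c : ℕ → S | ∃ n, h (g * pos c n) < l}ᶜ ∪ {c | ENNReal.ofReal K ≤ f c}) := by
    intro c _
    by_cases h1 : ∃ n, h (g * pos c n) < l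
    · by_cases h2 : ENNReal.ofReal K ≤ f c
      · exact Or.inr (Or.inr h2)
      · left
        have hn := Nat.find_spec h1
        have hmin := fun {k} => @Nat.find_min _ _ h1 k
        set n := Nat.find h1 with hndef
        refine ⟨n, hn, ?_, ?_⟩
        · cases hn0 : n with
          | zero =>
            rw [hn0, pos_zero, mul_one] at hn
            omega
          | succ k =>
            have hk : ¬ h (g * pos c k) < l := hmin (by omega)
            have h3 := hs.h_step (g * pos c k) (c k) (c k).2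
            rw [abs_le] at h3
            rw [pos_succ, ← mul_assoc]
            omega
        · refine (b_path hs g c n).trans ?_
          have h4 : ∑ k ∈ Finset.range n, θ ^ h (g * pos c k) ≤ K := by
            have h5 : ENNReal.ofReal (∑ k ∈ Finset.range n, θ ^ h (g * pos c k)) ≤ f c := by
              rw [ENNReal.ofReal_sum_of_nonneg fun k _ => (zpow_pos hs.θ0 _).le, hf]
              refine le_trans (le_of_eq ?_) (ENNReal.sum_le_tsum (Finset.range n))
              refine Finset.sum_congr rfl fun k hk => ?_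
              rw [if_pos]
              intro j hj
              have : ¬ h (g * pos c j) < l := hmin (by
                have := Finset.mem_range.1 hk
                omega)
              omega
            have h6 := h5.trans (not_le.1 h2).le
            exact (ENNReal.ofReal_le_ofReal_iff hK0.le).1 h6
          have hD : (0 : ℝ) ≤ (D : ℝ) := by positivity
          nlinarith [mul_le_mul_of_nonneg_left h4 hD]
    · exact Or.inr (Or.inl h1)
  have h1 : (1 : ℝ≥0∞) ≤ hp S A g + 1 / 2 := by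
    calc (1 : ℝ≥0∞) = mlaw S Set.univ := measure_univ.symm
      _ ≤ mlaw S ({c : ℕ → S | ∃ n, g * pos c n ∈ A} ∪
        ({c : ℕ → S | ∃ n, h (g * pos c n) < l}ᶜ ∪ {c | ENNReal.ofReal K ≤ f c})) :=
          measure_mono hsub
      _ ≤ mlaw S {c : ℕ → S | ∃ n, g * pos c n ∈ A} +
        (mlaw S {c : ℕ → S | ∃ n, h (g * pos c n) < l}ᶜ + mlaw S {c | ENNReal.ofReal K ≤ f c}) :=
          (measure_union_le _ _).trans (add_le_add le_rfl (measure_union_le _ _))
      _ ≤ hp S A g + (0 + 1 / 2) := add_le_add le_rfl (add_le_add hE1.le hmk)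
      _ = hp S A g + 1 / 2 := by rw [zero_add]
  have h2 : (1 / 2 : ℝ≥0∞) + 1 / 2 ≤ hp S A g + 1 / 2 := by
    rw [ENNReal.add_halves]; exact h1
  exact (ENNReal.add_le_add_iff_right (by norm_num)).1 h2

theorem io3 (hzo : P_ZO) : P_IO3 := by
  intro Γ _ S _ _ _ H h b θ D t hs hsum hosc
  classical
  obtain ⟨C, hC0, hC⟩ := hsum
  obtain ⟨L, hL⟩ := words H hs.fin hs.sym hs.gen
  have hθ0 := hs.θ0
  have hθ1 := hs.θ1
  set B : ℝ := 2 * D * (C + 1) + 1 with hB
  set ρ : ℝ := (B + D * L * θ ^ (-(D : ℤ) - D * L)) * θ ^ (1 - (D : ℤ) * L) with hρ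
  have hB0 : 0 < B := by positivity
  have hρ0 : 0 < ρ := by positivity
  let G : ℤ → Set Γ := fun m => {x | x ∈ H ∧ b x ≤ ρ * θ ^ h x ∧ h x ≤ m}
  set δ : ℝ≥0∞ := ((Fintype.card S : ℝ≥0∞)⁻¹) ^ L * (1 / 2) with hδ
  have hcard : (Fintype.card S : ℝ≥0∞)⁻¹ ≤ 1 := by
    rw [ENNReal.inv_le_one]
    exact_mod_cast Nat.one_le_iff_ne_zero.2 Fintype.card_ne_zero
  have hδ0 : δ ≠ 0 := mul_ne_zero (pow_ne_zero _ card_inv_ne) (by norm_num)
  have main : ∀ (g : Γ) (m : ℤ), δ ≤ hp S (G m) g := by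
    intro g m
    obtain ⟨n, hn⟩ := pow_unbounded_of_one_lt (b g) (one_lt_inv_iff₀.2 ⟨hθ0, hθ1⟩)
    set l : ℤ := min (-(n : ℤ)) (min (h g) (m - D * L)) with hl
    have hl1 : l ≤ -(n : ℤ) := min_le_left _ _
    have hl2 : l ≤ h g := (min_le_right _ _).trans (min_le_left _ _)
    have hl3 : l ≤ m - D * L := (min_le_right _ _).trans (min_le_right _ _)
    have hbg : b g ≤ θ ^ l := by
      refine hn.le.trans ?_
      have : θ⁻¹ ^ n = θ ^ (-(n : ℤ)) := by rw [zpow_neg, zpow_natCast, inv_pow]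
      rw [this]
      exact zle hθ0 hθ1 hl1
    have hθl : 0 < θ ^ l := zpow_pos hθ0 l
    have h1 := passage hs C hC0 hC hosc g l hl2
    set A : Set Γ := {y | h y < l ∧ l - D ≤ h y ∧ b y ≤ b g + D * (2 * (C + 1) * θ ^ l)} with hA
    have h2 : ∀ y ∈ A, ((Fintype.card S : ℝ≥0∞)⁻¹) ^ L ≤ hp S (G m) y := by
      rintro y ⟨hy1, hy2, hy3⟩
      obtain ⟨v, hv, hvH⟩ := hL y
      refine le_trans (pow_le_pow_right_of_le_one' hcard hv) (hp_word (G m) v y ?_)
      obtain ⟨h3, h4⟩ := along hs v y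
      rw [abs_le] at h3
      have hvL : (D : ℤ) * v.length ≤ D * L := by
        have : (v.length : ℤ) ≤ L := by exact_mod_cast hv
        have hD : (0 : ℤ) ≤ D := by positivity
        nlinarith
      refine ⟨hvH, ?_, by linarith [h3.2]⟩
      have h5 : b (y * wp v) ≤ (B + D * L * θ ^ (-(D : ℤ) - D * L)) * θ ^ l := by
        have h6 : θ ^ (h y - (D : ℤ) * v.length) ≤ θ ^ (-(D : ℤ) - D * L) * θ ^ l := by
          rw [← zpow_add₀ hθ0.ne']
          exact zle hθ0 hθ1 (by linarith)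
        have h7 : (D : ℝ) * v.length ≤ D * L := by
          have : (v.length : ℝ) ≤ L := by exact_mod_cast hv
          have hD : (0 : ℝ) ≤ D := by positivity
          nlinarith
        have h8 : (D : ℝ) * v.length * θ ^ (h y - (D : ℤ) * v.length) ≤
            D * L * (θ ^ (-(D : ℤ) - D * L) * θ ^ l) :=
          mul_le_mul h7 h6 (zpow_pos hθ0 _).le (by positivity)
        have h9 : b g + D * (2 * (C + 1) * θ ^ l) ≤ B * θ ^ l := by
          rw [hB]; nlinarith
        calc b (y * wp v) ≤ b y + D * v.length * θ ^ (h y - (D : ℤ) * v.length) := h4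
          _ ≤ B * θ ^ l + D * L * (θ ^ (-(D : ℤ) - D * L) * θ ^ l) := by linarith
          _ = _ := by ring
      refine h5.trans ?_
      have h11 : ρ * θ ^ h (y * wp v) = (B + D * L * θ ^ (-(D : ℤ) - D * L)) *
          (θ ^ (1 - (D : ℤ) * L) * θ ^ h (y * wp v)) := by rw [hρ]; ring
      rw [h11]
      have h10 : (0 : ℝ) ≤ B + D * L * θ ^ (-(D : ℤ) - D * L) := by positivity
      refine mul_le_mul_of_nonneg_left ?_ h10
      rw [← zpow_add₀ hθ0.ne']
      exact zle hθ0 hθ1 (by linarith [h3.2])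
    exact le_trans (mul_le_mul_right h1 _) (hp_markov A (G m) _ h2 g)
  -- the event
  let E : ℕ → Set (ℕ → S) := fun m => {c : ℕ → S | ∃ n, pos c n ∈ G (-(m : ℤ))}
  let A : Set (ℕ → S) := ⋂ m, E m
  have hEm : ∀ m, MeasurableSet (E m) := fun m => by
    have := meas_hit (S := S) (G (-(m : ℤ))) 1
    simpa only [one_mul] using this
  have hAm : MeasurableSet A := MeasurableSet.iInter hEm
  have hA1 : mlaw S A = 1 := by
    refine hzo S A hAm δ hδ0 fun k w => ?_
    -- the walk after time `k`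
    let g : Γ := pos w k
    have hpos : ∀ (d : ℕ → S) (j : ℕ),
        pos (fun i => if i < k then w i else d (i - k)) (k + j) = g * pos d j := by
      intro d j
      have hpre : ∀ i ≤ k, pos (fun i => if i < k then w i else d (i - k)) i = pos w i := by
        intro i hi
        induction i with
        | zero => rfl
        | succ i ih =>
          rw [pos_succ, pos_succ, ih (by omega), if_pos (by omega)]
      induction j with
      | zero => rw [add_zero, hpre k le_rfl, pos_zero, mul_one]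
      | succ j ih =>
        rw [← add_assoc, pos_succ, ih, pos_succ, ← mul_assoc, if_neg (by omega),
          Nat.add_sub_cancel_left]
    have hsub : (⋂ m : ℕ, {d : ℕ → S | ∃ n, g * pos d n ∈ G (-(m : ℤ))}) ⊆
        {d | (fun i => if i < k then w i else d (i - k)) ∈ A} := by
      intro d hd
      rw [Set.mem_iInter] at hd
      change _ ∈ ⋂ m, E m
      rw [Set.mem_iInter]
      intro m
      obtain ⟨n, hn⟩ := hd m
      exact ⟨k + n, by rw [hpos]; exact hn⟩
    refine le_trans ?_ (measure_mono hsub)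
    have hanti : Antitone fun m : ℕ => {d : ℕ → S | ∃ n, g * pos d n ∈ G (-(m : ℤ))} := by
      intro m m' hm d ⟨n, hn1, hn2, hn3⟩
      exact ⟨n, hn1, hn2, hn3.trans (by simpa using hm)⟩
    rw [hanti.measure_iInter (fun m => (meas_hit _ g).nullMeasurableSet)
      ⟨0, measure_ne_top _ _⟩]
    exact le_iInf fun m => main g (-(m : ℤ))
  refine ⟨ρ / (1 - θ), div_nonneg hρ0.le (by linarith), ?_⟩
  refine le_antisymm prob_le_one ?_
  rw [← hA1]
  refine measure_mono fun c hc => ?_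
  change c ∈ ⋂ m, E m at hc
  rw [Set.mem_iInter] at hc
  rw [Set.mem_ofPred_eq, Filter.frequently_atTop]
  intro n0
  obtain ⟨n, hnH, hnb, hnh⟩ := hc (D * n0 + 1)
  have hD : (0 : ℤ) < D := by have := hs.D1; omega
  have h1 := h_path hs c n
  push_cast at hnh
  have hn0 : n0 ≤ n := by
    by_contra hlt
    push Not at hlt
    have : (D : ℤ) * n ≤ D * n0 := by
      have : (n : ℤ) ≤ n0 := by exact_mod_cast hlt.le
      nlinarith
    linarith
  have hneg : h (pos c n) ≤ -1 := by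
    have : (0 : ℤ) ≤ D * n0 := by positivity
    linarith
  refine ⟨n, hn0, H.inv_mem hnH, ?_, ?_⟩
  · have h2 := hs.h_mul _ (H.inv_mem hnH) (pos c n)
    rw [inv_mul_cancel, h_one' hs] at h2
    omega
  · have h2 := hs.h_mul _ (H.inv_mem hnH) (pos c n)
    rw [inv_mul_cancel, h_one' hs] at h2
    have h3 := hs.b_inv _ hnH
    have h4 : b (pos c n)⁻¹ ≤ ρ := by
      refine h3.trans ?_
      calc θ ^ (-h (pos c n)) * b (pos c n)
          ≤ θ ^ (-h (pos c n)) * (ρ * θ ^ h (pos c n)) :=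
            mul_le_mul_of_nonneg_left hnb (zpow_pos hθ0 _).le
        _ = ρ * (θ ^ (-h (pos c n)) * θ ^ h (pos c n)) := by ring
        _ = ρ := by rw [← zpow_add₀ hθ0.ne', neg_add_cancel, zpow_zero, mul_one]
    refine h4.trans ?_
    have h5 : h (pos c n)⁻¹ = -h (pos c n) := by omega
    have h6 : θ ^ h (pos c n)⁻¹ ≤ θ := by
      rw [h5]
      calc θ ^ (-h (pos c n)) ≤ θ ^ (1 : ℤ) := zle hθ0 hθ1 (by linarith)
        _ = θ := zpow_one θ
    have h7 : 0 < 1 - θ := by linarith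
    calc ρ = ρ / (1 - θ) * (1 - θ) := by field_simp
      _ ≤ ρ / (1 - θ) * (1 - θ ^ h (pos c n)⁻¹) :=
          mul_le_mul_of_nonneg_left (by linarith) (div_nonneg hρ0.le h7.le)

end Pool.Agent.W2helper34.FD
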